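import Pool.Agent.H.MP_2df8e9_al.A

set_option autoImplicit false

namespace Pool.Agent.Results.MP_2df8e9_al.Yes

/-- The `n`-ary bracket of the simple `n`-Lie algebra `L_{n+1}` on `F^{n+1}` (coordinates indexed from `0`):
the alternating `n`-linear map sending the basis tuple with `e_i` omitted to `(-1)^(n+i) e_i`. -/
def br (F : Type) [Field F] (n : ℕ) (v : Fin n → Fin (n + 1) → F) : Fin (n + 1) → F :=
  fun i => (-1) ^ (n + (i : ℕ)) * Matrix.det (Matrix.of fun a b => v a (i.succAbove b))

open Pool.Agent.H.MP_2df8e9_al in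
theorem result (F : Type) [Field F] [IsAlgClosed F] [CharZero F] (n : ℕ) (h3 : 3 ≤ n) (hn : Odd n) :
    ∃ (A : Type) (_ : Ring A) (_ : Algebra F A) (j : (Fin (n + 1) → F) →ₗ[F] A), Function.Injective j ∧
      ∀ v : Fin n → Fin (n + 1) → F, j (br F n v) =
        ∑ σ : Equiv.Perm (Fin n), (Equiv.Perm.sign σ : ℤ) • (List.ofFn fun k => j (v (σ k))).prod := by
  obtain ⟨r, rfl⟩ : ∃ r, n = r + 1 := ⟨n - 1, by omega⟩
  obtain ⟨A, _, _, _, x, h, s⟩ := cl F (r + 1)
  obtain ⟨e, li, he⟩ := gens (F := F) (by simpa [Nat.odd_add_one] using hn) (by omega) x h s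
  refine ⟨A, inferInstance, inferInstance, Fintype.linearCombination F e,
    linearIndependent_iff_injective_fintypeLinearCombination.1 li, fun v => ?_⟩
  let b : (Fin (r + 2) → F) [⋀^Fin (r + 1)]→ₗ[F] A := ∑ i : Fin (r + 2),
    ((LinearMap.toSpanSingleton F A ((-1 : F) ^ (r + 1 + i) • e i)).compAlternatingMap
      Matrix.detRowAlternating).compLinearMap (LinearMap.funLeft F F i.succAbove)
  have hb : ∀ v, b v = Fintype.linearCombination F e (br F _ v) := fun v => by
    change AlternatingMap.toMultilinearMapLM (S := F) b v = _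
    simp only [b, map_sum, sum_apply, Fintype.linearCombination_apply, br]
    exact Finset.sum_congr rfl fun i _ => by simp [smul_smul, mul_comm, Matrix.det]; rfl
  have : b = (alt F (r + 1)).compLinearMap (Fintype.linearCombination F e) :=
    (Pi.basisFun F _).ext_alternating fun u hu => by
      obtain ⟨i, hi⟩ : ∃ i, i ∉ Set.range u := not_forall.1 fun q => by
        simpa using Fintype.card_le_of_surjective u q
      choose t ht using fun k => Fin.exists_succAbove_eq (fun q => hi ⟨k, q⟩ : u k ≠ i)
      let σ := Equiv.ofBijective t (Finite.injective_iff_bijective.1 fun k l q => hu (by rw [← ht, q, ht]))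
      have : (fun k => Pi.basisFun F _ (u k)) = (fun k => Pi.basisFun F _ (i.succAbove k)) ∘ σ :=
        funext fun k => by simp [σ, ht]
      rw [this, AlternatingMap.map_perm, AlternatingMap.map_perm, hb]
      congr 1
      simp only [AlternatingMap.compLinearMap_apply, Pi.basisFun_apply, Fintype.linearCombination_apply_single,
        one_smul, he]
      rw [Fintype.linearCombination_apply, Finset.sum_eq_single i (fun l _ q => ?_) (by simp)]
      · rw [br, show (Matrix.of fun a b => (Pi.single (i.succAbove a) 1 : _ → F) (i.succAbove b)) = 1 from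
          Matrix.ext fun a b => by simp [Pi.single_apply, Matrix.one_apply, eq_comm]]
        simp
      · obtain ⟨a, rfl⟩ := Fin.exists_succAbove_eq q
        rw [br, Matrix.det_eq_zero_of_row_eq_zero a fun b => by simp [Pi.single_apply]]
        simp
  rw [← hb, this, AlternatingMap.compLinearMap_apply, alt_ap]
  rfl

end Pool.Agent.Results.MP_2df8e9_al.Yes
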